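import Mathlib
import Pool.Agent.W500.FL.Stm

/-!
# FL-IRR : the discriminant of an irreducible polynomial over a finite field (Stickelberger)
-/

set_option autoImplicit false

open Polynomial Finset

namespace Pool.Agent.W597.FL

open Pool.Agent.W500.FL

/-- product over the pairs -/
theorem off_diag {L : Type} [Field L] (k : ℕ) (v : Fin (k + 1) → L) :
    ∏ i, ∏ j ∈ univ.erase i, (v i - v j) =
      (-1) ^ ((k + 1) * k / 2) * (Matrix.vandermonde v).det ^ 2 := by
  have h1 := prod_prod_Ioi_mul_eq_prod_prod_off_diag (fun i j : Fin (k + 1) => v j - v i)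
  have h2 : ∏ i, ∏ j ∈ univ.erase i, (v i - v j) =
      ∏ i : Fin (k + 1), ∏ j ∈ {i}ᶜ, (v i - v j) := by
    apply Finset.prod_congr rfl
    intro i _
    apply Finset.prod_congr _ (fun _ _ => rfl)
    ext j
    simp
  rw [h2, ← h1, Matrix.det_vandermonde]
  have h3 : ∀ i : Fin (k + 1), ∏ j ∈ Ioi i, (v i - v j) * (v j - v i) =
      (-1) ^ (#(Ioi i)) * (∏ j ∈ Ioi i, (v j - v i)) ^ 2 := by
    intro i
    rw [← Finset.prod_pow, ← Finset.prod_const, ← Finset.prod_mul_distrib]
    apply Finset.prod_congr rfl
    intro j _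
    ring
  rw [Finset.prod_congr rfl (fun i _ => h3 i), Finset.prod_mul_distrib, Finset.prod_pow,
    Finset.prod_pow_eq_pow_sum]
  congr 2
  have h4 : ∀ i : Fin (k + 1), #(Ioi i) = k + 1 - 1 - (i : ℕ) := fun i => by rw [Fin.card_Ioi]
  rw [Finset.sum_congr rfl (fun i _ => h4 i), Fin.sum_univ_eq_sum_range (fun i => k + 1 - 1 - i),
    Finset.sum_range_reflect (fun i => i) (k + 1), Finset.sum_range_id]
  simp

theorem irr (K : Type) [Field K] [Fintype K] [DecidableEq K] (hK : ringChar K ≠ 2)
    (P : K[X]) (hP : P.Monic) (hirr : Irreducible P) :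
    jac P (derivative P) = - (-1) ^ P.natDegree *
      quadraticChar K (-1) ^ (P.natDegree * (P.natDegree - 1) / 2) := by
  have : Fact (Irreducible P) := ⟨hirr⟩
  let L := AdjoinRoot P
  let pb := AdjoinRoot.powerBasis hirr.ne_zero
  have : Module.Finite K L := pb.finite
  have : Finite L := Module.finite_of_finite K
  have : Fintype L := Fintype.ofFinite L
  obtain ⟨k, hk⟩ : ∃ k, P.natDegree = k + 1 :=
    ⟨P.natDegree - 1, by have := hirr.natDegree_pos; omega⟩
  have hdim : Module.finrank K L = k + 1 := by
    rw [pb.finrank, AdjoinRoot.powerBasis_dim, hk]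
  set q := Fintype.card K with hq
  have hcard : Fintype.card L = q ^ (k + 1) := by
    rw [Module.card_eq_pow_finrank (K := K), hdim]
  let θ : L := AdjoinRoot.root P
  let v : Fin (k + 1) → L := fun i => θ ^ (q ^ (i : ℕ))
  have hφ : ∀ i : ℕ, ((FiniteField.frobeniusAlgHom K L) ^ i) θ = θ ^ (q ^ i) := by
    intro i
    rw [AlgHom.coe_pow, FiniteField.coe_frobeniusAlgHom, pow_iterate]
  have hinj : Function.Injective v := by
    intro i j hij
    have h1 := (FiniteField.bijective_frobeniusAlgHom_pow K L).1
    have h2 : ((FiniteField.frobeniusAlgHom K L) ^ (i : ℕ)) =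
        ((FiniteField.frobeniusAlgHom K L) ^ (j : ℕ)) := by
      apply pb.algHom_ext
      show ((FiniteField.frobeniusAlgHom K L) ^ (i : ℕ)) θ =
        ((FiniteField.frobeniusAlgHom K L) ^ (j : ℕ)) θ
      rw [hφ, hφ]
      exact hij
    have h3 : (⟨i, by rw [hdim]; exact i.2⟩ : Fin (Module.finrank K L)) =
        ⟨j, by rw [hdim]; exact j.2⟩ := h1 h2
    have h4 := congrArg Fin.val h3
    exact Fin.ext h4
  have hroot : ∀ i, (P.map (algebraMap K L)).eval (v i) = 0 := by
    intro i
    have h1 : aeval θ P = 0 := by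
      rw [aeval_def]
      exact AdjoinRoot.eval₂_root P
    have h2 := congrArg ((FiniteField.frobeniusAlgHom K L) ^ (i : ℕ)) h1
    rw [← aeval_algHom_apply, hφ, map_zero] at h2
    rw [eval_map_algebraMap]
    exact h2
  have hprod : P.map (algebraMap K L) = Lagrange.nodal univ v := by
    apply eq_of_degree_sub_lt_of_eval_index_eq univ (hinj.injOn)
    · have h1 : (P.map (algebraMap K L)).degree = (Lagrange.nodal univ v).degree := by
        rw [Lagrange.degree_nodal, degree_map, degree_eq_natDegree hirr.ne_zero, hk]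
        simp
      have h2 := degree_sub_lt_left h1 (hP.map _).ne_zero
        (by rw [(hP.map _).leadingCoeff, Lagrange.nodal_monic.leadingCoeff])
      rwa [h1, Lagrange.degree_nodal] at h2
    · intro i _
      rw [hroot, Lagrange.eval_nodal_at_node (mem_univ i)]
  have hsplit : (P.map (algebraMap K L)).Splits := by
    rw [hprod]
    exact Splits.prod (fun i _ => Splits.X_sub_C (v i))
  have hroots : (P.map (algebraMap K L)).roots = univ.val.map v := by
    rw [hprod]
    have h1 : Lagrange.nodal univ v = ((univ.val.map v).map (fun a => X - C a)).prod := by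
      rw [Multiset.map_map]
      rfl
    rw [h1, roots_multiset_prod_X_sub_C]
  set r := Polynomial.resultant P (derivative P) with hr
  have hres : algebraMap K L r = ∏ i, ∏ j ∈ univ.erase i, (v i - v j) := by
    rw [hr, ← resultant_map_map]
    have h1 := resultant_eq_prod_eval (P.map (algebraMap K L)) ((derivative P).map (algebraMap K L))
      (derivative P).natDegree natDegree_map_le hsplit
    rw [natDegree_map, (hP.map _).leadingCoeff, one_pow, one_mul] at h1
    rw [h1, hroots, Multiset.map_map]
    show ∏ i, _ = _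
    apply Finset.prod_congr rfl
    intro i _
    rw [← derivative_map, hprod]
    show eval (v i) (derivative (Lagrange.nodal univ v)) = _
    rw [Lagrange.eval_nodal_derivative_eval_node_eq (mem_univ i), Lagrange.eval_nodal]
  rw [off_diag] at hres
  set D := (Matrix.vandermonde v).det with hD
  have hD0 : D ≠ 0 := Matrix.det_vandermonde_ne_zero_iff.2 hinj
  have hDq : D ^ q = (-1) ^ k * D := by
    have h1 : D ^ q = FiniteField.frobeniusAlgHom K L D := rfl
    have h2 : FiniteField.frobeniusAlgHom K L D =
        (Matrix.vandermonde (fun i => v (finRotate (k + 1) i))).det := by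
      rw [hD]
      show ((FiniteField.frobeniusAlgHom K L : L →ₐ[K] L) : L →+* L) _ = _
      rw [RingHom.map_det]
      congr 1
      ext i j
      simp only [RingHom.mapMatrix_apply, Matrix.map_apply, Matrix.vandermonde_apply, map_pow]
      congr 1
      show (v i) ^ q = v (finRotate (k + 1) i)
      induction i using Fin.lastCases with
      | last =>
        rw [finRotate_last]
        show (θ ^ (q ^ k)) ^ q = θ ^ (q ^ 0)
        rw [← pow_mul, ← pow_succ, ← hcard, FiniteField.pow_card, pow_zero, pow_one]
      | cast i =>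
        rw [finRotate_of_lt (by simp)]
        show (θ ^ (q ^ (i : ℕ))) ^ q = θ ^ (q ^ ((i : ℕ) + 1))
        rw [← pow_mul, ← pow_succ]
    have h3 : Matrix.vandermonde (fun i => v (finRotate (k + 1) i)) =
        (Matrix.vandermonde v).submatrix (finRotate (k + 1)) id := by
      ext i j
      rfl
    rw [h1, h2, h3, Matrix.det_permute, sign_finRotate, ← hD]
    simp
  have hq2 : q % 2 = 1 := FiniteField.odd_card_of_char_ne_two hK
  have hr0 : r ≠ 0 := by
    intro h
    rw [h, map_zero] at hres
    have : (-1 : L) ^ ((k + 1) * k / 2) * D ^ 2 ≠ 0 := by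
      apply mul_ne_zero
      · exact pow_ne_zero _ (by simp)
      · exact pow_ne_zero _ hD0
    exact this hres.symm
  -- the character
  have hmain : quadraticChar K ((-1) ^ ((k + 1) * k / 2) * r) = (-1) ^ k := by
    have h1 : algebraMap K L ((-1) ^ ((k + 1) * k / 2) * r) = D ^ 2 := by
      rw [map_mul, hres, map_pow, map_neg, map_one, ← mul_assoc, ← mul_pow]
      rw [show ((-1 : L) * -1) = 1 from by rw [neg_mul_neg, one_mul], one_pow, one_mul]
    have h2 := quadraticChar_eq_pow_of_char_ne_two' hK ((-1) ^ ((k + 1) * k / 2) * r)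
    have h3 : ((quadraticChar K ((-1) ^ ((k + 1) * k / 2) * r) : ℤ) : L) = (-1) ^ k := by
      have h4 := congrArg (algebraMap K L) h2
      rw [map_intCast, map_pow, h1, ← pow_mul] at h4
      rw [h4]
      have h5 : D ^ (2 * (q / 2)) * D = (-1) ^ k * D := by
        rw [← pow_succ, ← hDq]
        congr 1
        omega
      exact mul_right_cancel₀ hD0 h5
    have hchar : ringChar L ≠ 2 := by
      rw [← Algebra.ringChar_eq K L]
      exact hK
    have h6 : (-1 : L) ≠ 1 := Ring.neg_one_ne_one_of_char_ne_two hchar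
    have h7 : ((-1) ^ ((k + 1) * k / 2) * r) ≠ 0 := by
      apply mul_ne_zero _ hr0
      exact pow_ne_zero _ (by simp)
    have h9 : (((-1) ^ k : ℤ) : L) = (-1) ^ k := by rw [Int.cast_pow, Int.cast_neg, Int.cast_one]
    rcases quadraticChar_dichotomy h7 with h8 | h8 <;>
    rcases neg_one_pow_eq_or ℤ k with h10 | h10 <;> rw [h10] at h9 <;> rw [h8, ← h9] at h3 <;>
    rw [h8, h10]
    · exfalso
      rw [Int.cast_neg, Int.cast_one] at h3
      exact h6 h3.symm
    · exfalso
      rw [Int.cast_neg, Int.cast_one] at h3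
      exact h6 h3
  rw [map_mul, map_pow] at hmain
  have hχ : quadraticChar K (-1) ^ 2 = 1 := quadraticChar_sq_one (by simp)
  unfold jac
  rw [← hr, hk]
  have h1 : quadraticChar K (-1) ^ ((k + 1) * k / 2) * quadraticChar K (-1) ^ ((k + 1) * k / 2) = 1 := by
    rw [← mul_pow, ← pow_two, hχ, one_pow]
  have h2 : (k + 1) * (k + 1 - 1) / 2 = (k + 1) * k / 2 := by simp
  rw [h2]
  calc quadraticChar K r = (quadraticChar K (-1) ^ ((k + 1) * k / 2) *
        quadraticChar K (-1) ^ ((k + 1) * k / 2)) * quadraticChar K r := by rw [h1, one_mul]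
    _ = quadraticChar K (-1) ^ ((k + 1) * k / 2) * (quadraticChar K (-1) ^ ((k + 1) * k / 2) *
        quadraticChar K r) := by ring
    _ = _ := by rw [hmain]; ring

theorem main : S_IRR := fun K _ _ _ hK P hP hirr => irr K hK P hP hirr

end Pool.Agent.W597.FL
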